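import Pool.Agent.Y269.EL.Stm2
import Pool.Agent.Y269.EL.Base2

/-!
The connecting map is full.
-/

set_option autoImplicit false

namespace Pool.Agent.Y652.EL

set_option linter.unusedSectionVars false

open Filter Topology Set
open scoped InnerProductSpace
open Pool.Agent.Y269.EL

noncomputable section

variable {H : Type} [NormedAddCommGroup H] [InnerProductSpace ℂ H] [CompleteSpace H]
variable (A : Amb H)

/-! ### norms -/

lemma norm_star_le_one {S : H →L[ℂ] H} (h : star S * S = 1) : ‖star S‖ ≤ 1 := by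
  rw [norm_star]
  exact norm_le_one_of_isom h

lemma norm_conj_le {U V T : H →L[ℂ] H} {C : ℝ} (hU : ‖U‖ ≤ 1) (hV : ‖V‖ ≤ 1) (hT : ‖T‖ ≤ C) :
    ‖U * T * V‖ ≤ C := by
  have hC : 0 ≤ C := (norm_nonneg _).trans hT
  calc ‖U * T * V‖ ≤ ‖U * T‖ * ‖V‖ := norm_mul_le _ _
    _ ≤ (‖U‖ * ‖T‖) * ‖V‖ := mul_le_mul_of_nonneg_right (norm_mul_le _ _) (norm_nonneg _)
    _ ≤ (1 * C) * 1 := by
        refine mul_le_mul (mul_le_mul hU hT (norm_nonneg _) zero_le_one) hV (norm_nonneg _) ?_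
        linarith
    _ = C := by ring

lemma sq_half_le (a b : H) : ‖b‖ ^ 2 / 2 - ‖a - b‖ ^ 2 ≤ ‖a‖ ^ 2 := by
  have h1 : ‖b‖ ≤ ‖a‖ + ‖a - b‖ := by
    have := norm_sub_le a (a - b)
    rwa [sub_sub_cancel] at this
  have h2 : ‖b‖ ^ 2 ≤ (‖a‖ + ‖a - b‖) ^ 2 := pow_le_pow_left₀ (norm_nonneg _) h1 2
  nlinarith [sq_nonneg (‖a‖ - ‖a - b‖)]

/-! ### paths -/

/-- a path from a constant to the sum of its two copies -/
def pth (G : Geo H) (a c : ℝ → ℝ) (V : H →L[ℂ] H) (s : ℝ) (_ _ : Pt) (g : H →L[ℂ] H) :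
    H →L[ℂ] H :=
  ((a s : ℝ) : ℂ) • V +
    ((c s : ℝ) : ℂ) • (G.S1 * V * star G.S1 + G.S2 * g * V * star g * star G.S2)

lemma two_copies_norm {G : Geo H} (hG : G.OK) {g V : H →L[ℂ] H} (hg : star g * g = 1) :
    ‖G.S1 * V * star G.S1 + G.S2 * g * V * star g * star G.S2‖ ≤ 2 * ‖V‖ := by
  have h1 : ‖G.S1 * V * star G.S1‖ ≤ ‖V‖ :=
    norm_conj_le (norm_le_one_of_isom hG.s11) (norm_star_le_one hG.s11) le_rfl
  have h2 : ‖g * V * star g‖ ≤ ‖V‖ :=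
    norm_conj_le (norm_le_one_of_isom hg) (norm_star_le_one hg) le_rfl
  have h3 : ‖G.S2 * g * V * star g * star G.S2‖ ≤ ‖V‖ := by
    have : G.S2 * g * V * star g * star G.S2 = G.S2 * (g * V * star g) * star G.S2 := by
      simp only [mul_assoc]
    rw [this]
    exact norm_conj_le (norm_le_one_of_isom hG.s22) (norm_star_le_one hG.s22) h2
  calc _ ≤ ‖G.S1 * V * star G.S1‖ + ‖G.S2 * g * V * star g * star G.S2‖ := norm_add_le _ _
    _ ≤ 2 * ‖V‖ := by linarith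

lemma pth_isE (hI : IseStmt H) {G : Geo H} (hG : G.OK) {a c : ℝ → ℝ} (ha : Continuous a)
    (hc : Continuous c) {M : ℝ} (hM : 0 ≤ M) (ha1 : ∀ s ∈ Icc (0 : ℝ) 1, |a s| ≤ 1)
    (hc1 : ∀ s ∈ Icc (0 : ℝ) 1, |c s| ≤ 1)
    (haL : ∀ s ∈ Icc (0 : ℝ) 1, ∀ s' ∈ Icc (0 : ℝ) 1, |a s - a s'| ≤ M * |s - s'|)
    (hcL : ∀ s ∈ Icc (0 : ℝ) 1, ∀ s' ∈ Icc (0 : ℝ) 1, |c s - c s'| ≤ M * |s - s'|)
    (h0 : c 0 = 0) (h1 : a 1 = 0) (h01 : c 1 = a 0) (V : H →L[ℂ] H) :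
    IsE A G (pth G a c V) where
  sc := by
    have hg : SC (Dom A G.d) (fun z : ℝ × Pt × Pt × (H →L[ℂ] H) => z.2.2.2) :=
      SC.of_contOn (C := 1) (Continuous.continuousOn (by fun_prop))
        (fun z hz => norm_le_one_of_isom (hI.gm A z.2.2.2 hz.2.2.2).1)
    have hV : SC (Dom A G.d) (fun z : ℝ × Pt × Pt × (H →L[ℂ] H) =>
        G.S1 * V * star G.S1 + G.S2 * z.2.2.2 * V * star z.2.2.2 * star G.S2) :=
      (((SC.const G.S1).mul (SC.const V)).mul (SC.const (star G.S1))).add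
        (((((SC.const G.S2).mul hg).mul (SC.const V)).mul hg.star).mul (SC.const (star G.S2)))
    have e1 : SC (Dom A G.d) (fun z : ℝ × Pt × Pt × (H →L[ℂ] H) => ((a z.1 : ℝ) : ℂ) • V) := by
      refine SC.smul (C := 1) (c := fun z : ℝ × Pt × Pt × (H →L[ℂ] H) => ((a z.1 : ℝ) : ℂ))
        (Continuous.continuousOn (by fun_prop)) (fun z hz => ?_) (SC.const V)
      rw [Complex.norm_real, Real.norm_eq_abs]
      exact ha1 _ hz.1
    have e2 : SC (Dom A G.d) (fun z : ℝ × Pt × Pt × (H →L[ℂ] H) => ((c z.1 : ℝ) : ℂ) •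
        (G.S1 * V * star G.S1 + G.S2 * z.2.2.2 * V * star z.2.2.2 * star G.S2)) := by
      refine SC.smul (C := 1) (c := fun z : ℝ × Pt × Pt × (H →L[ℂ] H) => ((c z.1 : ℝ) : ℂ))
        (Continuous.continuousOn (by fun_prop)) (fun z hz => ?_) hV
      rw [Complex.norm_real, Real.norm_eq_abs]
      exact hc1 _ hz.1
    exact e1.add e2
  eqc := by
    intro ε hε
    refine ⟨ε / (3 * M * ‖V‖ + 1), by positivity, ?_⟩
    intro t ht t' ht' htt u _ v _ g hg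
    have hV := two_copies_norm (V := V) hG (hI.gm A g hg).1
    set W := G.S1 * V * star G.S1 + G.S2 * g * V * star g * star G.S2 with hW
    have e1 : pth G a c V t u v g - pth G a c V t' u v g =
        ((a t - a t' : ℝ) : ℂ) • V + ((c t - c t' : ℝ) : ℂ) • W := by
      unfold pth
      rw [← hW]
      push_cast
      rw [sub_smul, sub_smul]
      abel
    rw [e1]
    have e2 : ‖((a t - a t' : ℝ) : ℂ) • V‖ ≤ M * |t - t'| * ‖V‖ := by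
      rw [norm_smul, Complex.norm_real, Real.norm_eq_abs]
      exact mul_le_mul_of_nonneg_right (haL t ht t' ht') (norm_nonneg _)
    have e3 : ‖((c t - c t' : ℝ) : ℂ) • W‖ ≤ M * |t - t'| * (2 * ‖V‖) := by
      rw [norm_smul, Complex.norm_real, Real.norm_eq_abs]
      exact mul_le_mul (hcL t ht t' ht') hV (norm_nonneg _) (by positivity)
    have e4 : |t - t'| * (3 * M * ‖V‖ + 1) ≤ ε := by
      rw [lt_div_iff₀ (by positivity)] at htt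
      exact htt.le
    have e5 : (0 : ℝ) ≤ |t - t'| := abs_nonneg _
    calc _ ≤ _ := norm_add_le _ _
      _ ≤ M * |t - t'| * ‖V‖ + M * |t - t'| * (2 * ‖V‖) := add_le_add e2 e3
      _ ≤ |t - t'| * (3 * M * ‖V‖ + 1) := by nlinarith
      _ ≤ ε := e4
  ev1 := fun _ _ _ _ _ _ _ _ _ => rfl
  ev2 := fun _ _ _ _ _ _ _ _ _ => rfl
  ev3 := fun t _ u _ v _ g _ => by
    unfold pth
    simp
  bd0 := fun u _ v _ g _ => by
    unfold pth
    rw [h0]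
    simp
  bd1 := fun u _ v _ g _ => by
    unfold pth
    rw [h0, h1, h01]
    simp [smul_add]

/-! ### the arguments of the blocks -/

lemma Y1_mem {G : Geo H} {D : Blk H} (hD : D.OK A G) (m : ℕ) {w : Pt}
    (hw : w ∈ XX (G.next A D).d) : Y1 D m w ∈ XX G.d := by
  intro k
  unfold Y1
  by_cases hk : k ∈ D.L m
  · simp only [if_pos hk]
    exact hD.p1_mem m k
  · simp only [if_neg hk]
    have h := hw (c1 m k)
    have h2 : (G.next A D).d (c1 m k) = G.d k := by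
      simp only [Geo.next, rec3_c1]
    rwa [h2] at h

lemma Y2_mem {G : Geo H} {D : Blk H} (hD : D.OK A G) (m : ℕ) {w : Pt}
    (hw : w ∈ XX (G.next A D).d) : Y2 D m w ∈ XX G.d := by
  intro k
  unfold Y2
  by_cases hk : k ∈ D.L m
  · simp only [if_pos hk]
    exact hD.p2_mem m k
  · simp only [if_neg hk]
    have h := hw (c2 m k)
    have h2 : (G.next A D).d (c2 m k) = G.d k := by
      simp only [Geo.next, rec3_c2]
    rwa [h2] at h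

lemma hh_mem (hI : IseStmt H) (G : Geo H) (D : Blk H) (m : ℕ) {w : Pt}
    (hw : w ∈ XX (G.next A D).d) : hh A G D m w ∈ GM A := by
  unfold hh
  split_ifs
  · exact one_mem _
  · exact (hI.ub A _ _ (hw (cS m))).1

section rows

variable {G : Geo H} {D : Blk H} {F : ℝ → Pt → Pt → (H →L[ℂ] H) → (H →L[ℂ] H)} {C : ℝ}

lemma blkt_le (hI : IseStmt H) (hD : D.OK A G)
    (hC : ∀ t ∈ Icc (0 : ℝ) 1, ∀ u ∈ XX G.d, ∀ v ∈ XX G.d, ∀ g ∈ GM A, ‖F t u v g‖ ≤ C)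
    (m : ℕ) {τ : ℝ} (hτ : τ ∈ Icc (0 : ℝ) 1) {w : Pt} (hw : w ∈ XX (G.next A D).d) :
    ‖blkt A G D m F τ w‖ ≤ C := by
  have h := (hI.gm A _ (hh_mem A hI G D m hw)).1
  exact norm_conj_le (norm_le_one_of_isom h) (norm_star_le_one h)
    (hC τ hτ _ (Y1_mem A hD m hw) _ (Y2_mem A hD m hw) _ (hD.g_mem m))

lemma Aop_le (hI : IseStmt H) (hG : G.OK) (hD : D.OK A G)
    (hC : ∀ t ∈ Icc (0 : ℝ) 1, ∀ u ∈ XX G.d, ∀ v ∈ XX G.d, ∀ g ∈ GM A, ‖F t u v g‖ ≤ C)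
    (i : ℕ) {s : ℝ} (hs : s ∈ Icc (0 : ℝ) 1) {w : Pt} (hw : w ∈ XX (G.next A D).d) {w' : Pt}
    (hw' : w' ∈ XX (G.next A D).d) {g : H →L[ℂ] H} (hg : g ∈ GM A) :
    ‖Aop A G D i F s w w' g‖ ≤ 2 * C := by
  have hC0 : 0 ≤ C := (norm_nonneg _).trans (blkt_le A hI hD hC 0 (τ := 0) (by simp) hw)
  unfold Aop
  split_ifs with h
  · have h1 : ‖F (2 * s) (Y1 D (2 * i) w) (Y1 D i w') (g * hh A G D i w')‖ ≤ C :=
      hC _ ⟨by linarith [hs.1], by linarith⟩ _ (Y1_mem A hD _ hw) _ (Y1_mem A hD _ hw') _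
        (mul_mem hg (hh_mem A hI G D i hw'))
    linarith
  · push Not at h
    have h1 : ‖G.S1 * F 0 (Y1 D (2 * i) w) (Y1 D (2 * i) w) 1 * star G.S1‖ ≤ C :=
      norm_conj_le (norm_le_one_of_isom hG.s11) (norm_star_le_one hG.s11)
        (hC _ (by simp) _ (Y1_mem A hD _ hw) _ (Y1_mem A hD _ hw) _ (one_mem _))
    have hgg := (hI.gm A g hg).1
    have ht : (2 * s - 1) * D.t i ∈ Icc (0 : ℝ) 1 := by
      have h3 := hD.t_mem i
      refine ⟨mul_nonneg (by linarith) h3.1, ?_⟩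
      have h4 : (2 * s - 1) * D.t i ≤ 1 * 1 :=
        mul_le_mul (by linarith [hs.2]) h3.2 h3.1 zero_le_one
      linarith
    have h2 : ‖g * blkt A G D i F ((2 * s - 1) * D.t i) w' * star g‖ ≤ C :=
      norm_conj_le (norm_le_one_of_isom hgg) (norm_star_le_one hgg)
        (blkt_le A hI hD hC i ht hw')
    have h3 : ‖G.S2 * g * blkt A G D i F ((2 * s - 1) * D.t i) w' * star g * star G.S2‖ ≤ C := by
      have : G.S2 * g * blkt A G D i F ((2 * s - 1) * D.t i) w' * star g * star G.S2 =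
          G.S2 * (g * blkt A G D i F ((2 * s - 1) * D.t i) w' * star g) * star G.S2 := by
        simp only [mul_assoc]
      rw [this]
      exact norm_conj_le (norm_le_one_of_isom hG.s22) (norm_star_le_one hG.s22) h2
    refine (norm_add_le _ _).trans ?_
    linarith

/-- the rows of the connecting map are bounded -/
lemma row_le (hI : IseStmt H) (hG : G.OK) (hD : D.OK A G)
    (hC : ∀ t ∈ Icc (0 : ℝ) 1, ∀ u ∈ XX G.d, ∀ v ∈ XX G.d, ∀ g ∈ GM A, ‖F t u v g‖ ≤ C)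
    {s : ℝ} (hs : s ∈ Icc (0 : ℝ) 1) {w : Pt} (hw : w ∈ XX (G.next A D).d) {w' : Pt}
    (hw' : w' ∈ XX (G.next A D).d) {g : H →L[ℂ] H} (hg : g ∈ GM A) (m : ℕ) :
    ‖if Even m then Aop A G D (m / 2) F s w w' g else blkt A G D m F (D.t m) w‖ ≤ 2 * C := by
  have hC0 : 0 ≤ C := (norm_nonneg _).trans (blkt_le A hI hD hC 0 (τ := 0) (by simp) hw)
  split_ifs
  · exact Aop_le A hI hG hD hC _ hs hw hw' hg
  · have := blkt_le A hI hD hC m (hD.t_mem m) hw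
    linarith

end rows

/-! ### block diagonal operators on operators with rank one rows -/

lemma hasSum_bs_Zc {T : ℕ → (H →L[ℂ] H)} {C K : ℝ} (hT : ∀ m, ‖T m‖ ≤ C) {μ : ℕ → ℕ}
    (hμ : Function.Injective μ) {x : ℕ → H} (hx : ∀ j, ‖x j‖ ≤ K) (ξ : H) :
    HasSum (fun j => ‖⟪A.b j, ξ⟫_ℂ‖ ^ 2 * ‖T (μ j) (x j)‖ ^ 2)
      (‖bs A T (Zc A μ x ξ)‖ ^ 2) := by
  have h := hasSum_bs A hT (Zc A μ x ξ)
  have h2 : (fun j => ‖⟪A.b j, ξ⟫_ℂ‖ ^ 2 * ‖T (μ j) (x j)‖ ^ 2) =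
      (fun m => ‖T m ((star (A.R m)) (Zc A μ x ξ))‖ ^ 2) ∘ μ := by
    funext j
    have h3 : (star (A.R (μ j))) (Zc A μ x ξ) = rk (x j) (A.b j) ξ := by
      rw [← Zc_row A hμ hx, mul_ap]
    rw [Function.comp_apply, h3, rk_ap, map_smul, norm_smul, mul_pow]
  rw [h2, hμ.hasSum_iff]
  · exact h
  · intro m hm
    have h3 : (star (A.R m)) (Zc A μ x ξ) = 0 := by
      rw [← mul_ap, Zc_row_ne A hμ hx fun i hi => hm ⟨i, hi⟩]
      simp
    rw [h3]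
    simp

lemma cs_sum (N : ℕ) (s : ℕ → ℝ) (hs : ∑ i ∈ Finset.range (N + 1), s i ^ 2 = 1) (x : ℕ → H) :
    ‖∑ i ∈ Finset.range (N + 1), ((s i : ℝ) : ℂ) • x i‖ ^ 2 ≤
      ∑ i ∈ Finset.range (N + 1), ‖x i‖ ^ 2 := by
  have h1 : ‖∑ i ∈ Finset.range (N + 1), ((s i : ℝ) : ℂ) • x i‖ ≤
      ∑ i ∈ Finset.range (N + 1), |s i| * ‖x i‖ := by
    refine (norm_sum_le _ _).trans (Finset.sum_le_sum fun i _ => ?_)
    rw [norm_smul, Complex.norm_real, Real.norm_eq_abs]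
  have h2 := Finset.sum_mul_sq_le_sq_mul_sq (Finset.range (N + 1)) (fun i => |s i|)
    (fun i => ‖x i‖)
  have h3 : ∑ i ∈ Finset.range (N + 1), |s i| ^ 2 = 1 := by
    rw [← hs]
    exact Finset.sum_congr rfl fun i _ => sq_abs _
  rw [h3, one_mul] at h2
  exact (pow_le_pow_left₀ (norm_nonneg _) h1 2).trans h2

lemma Ub_ap (N : ℕ) (s : ℕ → ℝ) (e : H) :
    Ub A N s e = ∑ l ∈ Finset.range (N + 1), ((s l : ℝ) : ℂ) • A.ga l e := by
  unfold Ub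
  simp

lemma block_lower (hI : IseStmt H) (N : ℕ) {s : ℕ → ℝ} (hs : s ∈ sph N) (B : H →L[ℂ] H)
    (e : H) : ‖B e‖ ^ 2 ≤
      ∑ l ∈ Finset.range (N + 1), ‖(Ub A N s * B * star (Ub A N s)) (A.ga l e)‖ ^ 2 := by
  obtain ⟨-, h2, h3, -, -⟩ := hI.ub A N s hs
  have hiso : star (Ub A N s) * Ub A N s = 1 := by rw [h2, h3]
  have hterm : ∀ l, ‖(Ub A N s * B * star (Ub A N s)) (A.ga l e)‖ =
      ‖B (Ub A N s (A.ga l e))‖ := by
    intro l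
    rw [mul_ap, mul_ap, norm_ap_of_isom hiso, h2]
  have hB : B e = ∑ l ∈ Finset.range (N + 1), ((s l : ℝ) : ℂ) • B (Ub A N s (A.ga l e)) := by
    have h4 : e = Ub A N s (Ub A N s e) := by
      rw [← mul_ap, h3]
      rfl
    calc B e = B (Ub A N s (Ub A N s e)) := by rw [← h4]
      _ = B (Ub A N s (∑ l ∈ Finset.range (N + 1), ((s l : ℝ) : ℂ) • A.ga l e)) := by
          rw [← Ub_ap]
      _ = _ := by
          rw [map_sum, map_sum]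
          exact Finset.sum_congr rfl fun l _ => by rw [map_smul, map_smul]
  simp only [hterm]
  rw [hB]
  exact cs_sum N s hs.2 _

/-! ### blocks on which the function does not vanish -/

lemma exists_blocks {G : Geo H} {D : Blk H} (hD : D.OK A G)
    {F : ℝ → Pt → Pt → (H →L[ℂ] H) → (H →L[ℂ] H)} {e : H}
    (hF : ContinuousOn (fun z : ℝ × Pt × Pt × (H →L[ℂ] H) => F z.1 z.2.1 z.2.2.1 z.2.2.2 e)
      (Dom A G.d)) {t : ℝ} (ht : t ∈ Icc (0 : ℝ) 1) {u : Pt} (hu : u ∈ XX G.d) {v : Pt}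
    (hv : v ∈ XX G.d) {g : H →L[ℂ] H} (hg : g ∈ GM A) (hne : F t u v g e ≠ 0) :
    ∃ (L : Finset ℕ) (μ : ℕ → ℕ) (η : ℝ), 0 < η ∧ Function.Injective μ ∧
      ∀ j, Odd (μ j) ∧ D.L (μ j) = L ∧ ∀ w ∈ XX (G.next A D).d,
        η ≤ ‖F (D.t (μ j)) (Y1 D (μ j) w) (Y2 D (μ j) w) (D.g (μ j)) e‖ := by
  set f : ℝ × Pt × Pt × (H →L[ℂ] H) → H := fun z => F z.1 z.2.1 z.2.2.1 z.2.2.2 e with hf
  set z0 : ℝ × Pt × Pt × (H →L[ℂ] H) := (t, u, v, g) with hz0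
  have hz0D : z0 ∈ Dom A G.d := ⟨ht, hu, hv, hg⟩
  have hpos : 0 < ‖f z0‖ := norm_pos_iff.mpr hne
  have h1 : ∀ᶠ z in 𝓝[Dom A G.d] z0, ‖f z0‖ / 2 < ‖f z‖ :=
    (hF z0 hz0D).norm.eventually (lt_mem_nhds (half_lt_self hpos))
  rw [eventually_nhdsWithin_iff, eventually_nhds_iff] at h1
  obtain ⟨U, hU, hUo, hUz⟩ := h1
  obtain ⟨O1, P1, hO1, hP1, htO, hP1m, hs1⟩ := isOpen_prod_iff.mp hUo t (u, v, g) hUz
  obtain ⟨O2, P2, hO2, hP2, huO, hP2m, hs2⟩ := isOpen_prod_iff.mp hP1 u (v, g) hP1m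
  obtain ⟨O3, O4, hO3, hO4, hvO, hgO, hs3⟩ := isOpen_prod_iff.mp hP2 v g hP2m
  obtain ⟨I2, W2, hW2, hsub2⟩ := isOpen_pi_iff.mp hO2 u huO
  obtain ⟨I3, W3, hW3, hsub3⟩ := isOpen_pi_iff.mp hO3 v hvO
  obtain ⟨a, ha⟩ : ∃ a : ℕ, I2 ∪ I3 ⊆ Finset.range a := by
    refine ⟨(I2 ∪ I3).sup id + 1, fun k hk => ?_⟩
    rw [Finset.mem_range]
    exact Nat.lt_succ_of_le (Finset.le_sup (f := id) hk)
  obtain ⟨L, hL, hdense⟩ := hD.dense a
  set O : Set (ℝ × Pt × Pt × (H →L[ℂ] H)) :=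
    O1 ×ˢ ((I2 : Set ℕ).pi W2) ×ˢ ((I3 : Set ℕ).pi W3) ×ˢ O4 with hOdef
  have hOo : IsOpen O :=
    hO1.prod ((isOpen_set_pi (Finset.finite_toSet _) fun k hk => (hW2 k hk).1).prod
      ((isOpen_set_pi (Finset.finite_toSet _) fun k hk => (hW3 k hk).1).prod hO4))
  have hOz : z0 ∈ O := ⟨htO, fun k hk => (hW2 k hk).2, fun k hk => (hW3 k hk).2, hgO⟩
  have hinf := hdense O hOo ⟨z0, hOz, hz0D⟩
  set μ := hinf.natEmbedding with hμ
  refine ⟨L, fun j => (μ j : ℕ), ‖f z0‖ / 2, half_pos hpos,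
    fun i j hij => μ.injective (Subtype.ext hij), fun j => ?_⟩
  obtain ⟨hodd, hLj, hj⟩ := (μ j).2
  refine ⟨hodd, hLj, fun w hw => ?_⟩
  set m : ℕ := (μ j : ℕ) with hm
  obtain ⟨hj1, hj2, hj3, hj4⟩ := hj
  have hk2 : Y1 D m w ∈ O2 := by
    refine hsub2 fun k hk => ?_
    have hkL : k ∈ D.L m := by
      rw [hLj]
      exact hL (ha (Finset.mem_union_left _ hk))
    have : Y1 D m w k = D.p1 m k := if_pos hkL
    rw [this]
    exact hj2 k hk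
  have hk3 : Y2 D m w ∈ O3 := by
    refine hsub3 fun k hk => ?_
    have hkL : k ∈ D.L m := by
      rw [hLj]
      exact hL (ha (Finset.mem_union_right _ hk))
    have : Y2 D m w k = D.p2 m k := if_pos hkL
    rw [this]
    exact hj3 k hk
  have hzU : (D.t m, Y1 D m w, Y2 D m w, D.g m) ∈ U :=
    hs1 ⟨hj1, hs2 ⟨hk2, hs3 ⟨hk3, hj4⟩⟩⟩
  exact (hU _ hzU ⟨hD.t_mem m, Y1_mem A hD m hw, Y2_mem A hD m hw, hD.g_mem m⟩).le

/-! ### the lower bounds -/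

/-- the constant operators of the family detect the connecting map -/
lemma const_lower (hI : IseStmt H) {G : Geo H} {D : Blk H} (hG : G.OK) (hD : D.OK A G)
    {F : ℝ → Pt → Pt → (H →L[ℂ] H) → (H →L[ℂ] H)} {C : ℝ}
    (hC : ∀ t ∈ Icc (0 : ℝ) 1, ∀ u ∈ XX G.d, ∀ v ∈ XX G.d, ∀ g ∈ GM A, ‖F t u v g‖ ≤ C)
    {e : H} {L : Finset ℕ} {μ : ℕ → ℕ} {η : ℝ} (hη : 0 < η) (hμ : Function.Injective μ)
    (hb : ∀ j, Odd (μ j) ∧ D.L (μ j) = L ∧ ∀ w ∈ XX (G.next A D).d,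
      η ≤ ‖F (D.t (μ j)) (Y1 D (μ j) w) (Y2 D (μ j) w) (D.g (μ j)) e‖)
    {N : ℕ} (hN : N = 2 * (2 * ∑ k ∈ L, G.cap k) + 1)
    {s : ℝ} (hs : s ∈ Icc (0 : ℝ) 1) {w : Pt} (hw : w ∈ XX (G.next A D).d) {w' : Pt}
    (hw' : w' ∈ XX (G.next A D).d) {g : H →L[ℂ] H} (hg : g ∈ GM A) (ξ : H) :
    η ^ 2 * ‖ξ‖ ^ 2 ≤ ∑ l ∈ Finset.range (N + 1),
      ‖Phi A G D F s w w' g (Zc A μ (fun _ => A.ga l e) ξ)‖ ^ 2 := by
  have hrow := row_le A hI hG hD hC hs hw hw' hg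
  have hsum : HasSum (fun j => ∑ l ∈ Finset.range (N + 1), ‖⟪A.b j, ξ⟫_ℂ‖ ^ 2 *
      ‖(if Even (μ j) then Aop A G D (μ j / 2) F s w w' g else
        blkt A G D (μ j) F (D.t (μ j)) w) (A.ga l e)‖ ^ 2)
      (∑ l ∈ Finset.range (N + 1),
        ‖Phi A G D F s w w' g (Zc A μ (fun _ => A.ga l e) ξ)‖ ^ 2) :=
    hasSum_sum fun l _ => hasSum_bs_Zc A hrow hμ (x := fun _ => A.ga l e)
      (K := ‖A.ga l e‖) (fun _ => le_rfl) ξ
  have hsum2 := (hasSum_b A ξ).mul_left (η ^ 2)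
  refine hasSum_le (fun j => ?_) hsum2 hsum
  obtain ⟨hodd, hL, hlow⟩ := hb j
  have hne : ¬ Even (μ j) := Nat.not_even_iff_odd.mpr hodd
  have hNd : (G.next A D).d (cS (μ j)) = N := by
    rw [hN, ← hL]
    simp only [Geo.next, rec3_cS]
  have hsp : w (cS (μ j)) ∈ sph N := hNd ▸ hw (cS (μ j))
  have hblk : blkt A G D (μ j) F (D.t (μ j)) w = Ub A N (w (cS (μ j))) *
      F (D.t (μ j)) (Y1 D (μ j) w) (Y2 D (μ j) w) (D.g (μ j)) *
      star (Ub A N (w (cS (μ j)))) := by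
    unfold blkt hh
    rw [if_neg hne, hNd]
  simp only [if_neg hne]
  rw [hblk, ← Finset.mul_sum, mul_comm]
  refine mul_le_mul_of_nonneg_left ?_ (sq_nonneg _)
  refine le_trans ?_ (block_lower A hI N hsp _ e)
  exact pow_le_pow_left₀ hη.le (hlow w hw) 2

lemma norm_sq_split {G : Geo H} (hG : G.OK) (ξ : H) :
    ‖(star G.S1) ξ‖ ^ 2 + ‖(star G.S2) ξ‖ ^ 2 = ‖ξ‖ ^ 2 := by
  have h1 : ⟪(G.S1 * star G.S1 + G.S2 * star G.S2) ξ, ξ⟫_ℂ = ⟪ξ, ξ⟫_ℂ := by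
    rw [hG.sum_one]
    rfl
  have h2 : ⟪(G.S1 * star G.S1 + G.S2 * star G.S2) ξ, ξ⟫_ℂ =
      ⟪(star G.S1) ξ, (star G.S1) ξ⟫_ℂ + ⟪(star G.S2) ξ, (star G.S2) ξ⟫_ℂ := by
    rw [inner_star', inner_star', ← inner_add_left]
    rfl
  rw [h2, inner_self_eq_norm_sq_to_K, inner_self_eq_norm_sq_to_K,
    inner_self_eq_norm_sq_to_K] at h1
  exact_mod_cast h1

lemma norm_sq_two {G : Geo H} (hG : G.OK) (x y : H) :
    ‖G.S1 x + G.S2 y‖ ^ 2 = ‖x‖ ^ 2 + ‖y‖ ^ 2 := by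
  rw [← norm_sq_split hG (G.S1 x + G.S2 y), map_add, map_add, ← mul_ap, ← mul_ap, ← mul_ap,
    ← mul_ap, hG.s11, hG.s22, hG.s12]
  have h21 : star G.S2 * G.S1 = 0 := by
    have := congrArg star hG.s12
    rwa [star_mul, star_star, star_zero] at this
  rw [h21]
  simp

/-- the product at the time one -/
lemma end_mul {G : Geo H} (hG : G.OK) {g : H →L[ℂ] H} (hg : star g * g = 1)
    (P Q V : H →L[ℂ] H) :
    (G.S1 * P * star G.S1 + G.S2 * g * Q * star g * star G.S2) *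
      (G.S1 * V * star G.S1 + G.S2 * g * V * star g * star G.S2) =
      G.S1 * (P * V * star G.S1) + G.S2 * (g * (Q * V * (star g * star G.S2))) := by
  have h21 : star G.S2 * G.S1 = 0 := by
    have := congrArg star hG.s12
    rwa [star_mul, star_star, star_zero] at this
  have e1 : ∀ X : H →L[ℂ] H, star G.S1 * (G.S1 * X) = X := fun X => by
    rw [← mul_assoc, hG.s11, one_mul]
  have e2 : ∀ X : H →L[ℂ] H, star G.S2 * (G.S2 * X) = X := fun X => by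
    rw [← mul_assoc, hG.s22, one_mul]
  have e3 : ∀ X : H →L[ℂ] H, star G.S1 * (G.S2 * X) = 0 := fun X => by
    rw [← mul_assoc, hG.s12, zero_mul]
  have e4 : ∀ X : H →L[ℂ] H, star G.S2 * (G.S1 * X) = 0 := fun X => by
    rw [← mul_assoc, h21, zero_mul]
  have e5 : ∀ X : H →L[ℂ] H, star g * (g * X) = X := fun X => by
    rw [← mul_assoc, hg, one_mul]
  rw [add_mul, mul_add, mul_add]
  simp only [mul_assoc, e1, e2, e3, e4, e5, mul_zero, add_zero, zero_add]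

/-- the lower bound at the time one -/
lemma end_lower {G : Geo H} (hG : G.OK) {g : H →L[ℂ] H} (hg : star g * g = 1)
    (hg' : g * star g = 1) {P Q : H →L[ℂ] H} {δ : ℝ} {n : ℕ} {V : ℕ → (H →L[ℂ] H)}
    (hP : ∀ ξ : H, δ * ‖ξ‖ ^ 2 ≤ ∑ l ∈ Finset.range n, ‖P (V l ξ)‖ ^ 2)
    (hQ : ∀ ξ : H, δ * ‖ξ‖ ^ 2 ≤ ∑ l ∈ Finset.range n, ‖Q (V l ξ)‖ ^ 2) (ξ : H) :
    δ * ‖ξ‖ ^ 2 ≤ ∑ l ∈ Finset.range n,
      ‖(G.S1 * P * star G.S1 + G.S2 * g * Q * star g * star G.S2)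
        ((G.S1 * V l * star G.S1 + G.S2 * g * V l * star g * star G.S2) ξ)‖ ^ 2 := by
  have h1 : ∀ l, ‖(G.S1 * P * star G.S1 + G.S2 * g * Q * star g * star G.S2)
        ((G.S1 * V l * star G.S1 + G.S2 * g * V l * star g * star G.S2) ξ)‖ ^ 2 =
      ‖P (V l ((star G.S1) ξ))‖ ^ 2 + ‖Q (V l ((star g) ((star G.S2) ξ)))‖ ^ 2 := by
    intro l
    rw [← mul_ap, end_mul hG hg]
    have h2 : (G.S1 * (P * V l * star G.S1) + G.S2 * (g * (Q * V l * (star g * star G.S2)))) ξ =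
        G.S1 (P (V l ((star G.S1) ξ))) + G.S2 (g (Q (V l ((star g) ((star G.S2) ξ))))) := rfl
    rw [h2, norm_sq_two hG, norm_ap_of_isom hg]
  simp only [h1]
  rw [Finset.sum_add_distrib]
  have h3 : ‖(star g) ((star G.S2) ξ)‖ = ‖(star G.S2) ξ‖ :=
    norm_ap_of_isom (by rw [star_star]; exact hg') _
  have h4 := hP ((star G.S1) ξ)
  have h5 := hQ ((star g) ((star G.S2) ξ))
  rw [h3] at h5
  rw [← norm_sq_split hG ξ]
  linarith

/-- the scalar functions of the first half of the family -/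
def fa (s : ℝ) : ℝ := max 0 (1 - 2 * s)
def fc (s : ℝ) : ℝ := max 0 (2 * s - 1)
def fz (s : ℝ) : ℝ := s * (1 - s)

lemma max_lip (x y : ℝ) : |max 0 x - max 0 y| ≤ |x - y| := by
  have := abs_max_sub_max_le_abs x y 0
  rwa [max_comm x, max_comm y] at this

theorem full (H : Type) [NormedAddCommGroup H] [InnerProductSpace ℂ H] [CompleteSpace H]
    (hI : IseStmt H) : FullStmt H := by
  intro A G D hG hD hG' F hF hPhi hne
  obtain ⟨t, ht, u, hu, v, hv, g0, hg0, hF0⟩ := hne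
  obtain ⟨e, he⟩ : ∃ e : H, F t u v g0 e ≠ 0 := by
    by_contra hcon
    push Not at hcon
    exact hF0 (ContinuousLinearMap.ext fun x => by rw [hcon x]; rfl)
  obtain ⟨L, μ, η, hη, hμ, hb⟩ := exists_blocks A hD (hF.sc.cont e) ht hu hv hg0 he
  obtain ⟨C, hC⟩ := hF.sc.bdd
  have hC' : ∀ t ∈ Icc (0 : ℝ) 1, ∀ u ∈ XX G.d, ∀ v ∈ XX G.d, ∀ g ∈ GM A,
      ‖F t u v g‖ ≤ C := fun t ht u hu v hv g hg => hC (t, u, v, g) ⟨ht, hu, hv, hg⟩
  set N : ℕ := 2 * (2 * ∑ k ∈ L, G.cap k) + 1 with hN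
  set V : ℕ → (H →L[ℂ] H) := fun l => Zc A μ (fun _ => A.ga l e) with hV
  set G' := G.next A D with hG'def
  set Ψ := Phi A G D F with hΨ
  have hlow : ∀ s ∈ Icc (0 : ℝ) 1, ∀ w ∈ XX G'.d, ∀ w' ∈ XX G'.d, ∀ g ∈ GM A, ∀ ξ : H,
      η ^ 2 * ‖ξ‖ ^ 2 ≤ ∑ l ∈ Finset.range (N + 1), ‖Ψ s w w' g (V l ξ)‖ ^ 2 :=
    fun s hs w hw w' hw' g hg ξ => const_lower A hI hG hD hC' hη hμ hb hN hs hw hw' hg ξ
  have hVn : ∀ l, ‖V l‖ ≤ ‖e‖ := by
    intro l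
    have hga : ‖A.ga l e‖ ≤ ‖e‖ := by
      rw [norm_ap_of_isom (by rw [A.ga_star, A.ga_sq])]
    exact norm_Zc_le A hμ fun _ => hga
  -- the lower bound near the time one
  set K : ℝ := ((N : ℝ) + 1) * (2 * ‖e‖) ^ 2 with hK
  have hK0 : 0 ≤ K := by positivity
  set ε : ℝ := √(η ^ 2 / 4 / (K + 1)) with hε
  have hε0 : 0 < ε := Real.sqrt_pos.mpr (by positivity)
  have hε2 : K * ε ^ 2 ≤ η ^ 2 / 4 := by
    rw [hε, Real.sq_sqrt (by positivity), mul_div_assoc', div_le_iff₀ (by positivity)]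
    nlinarith [sq_nonneg η]
  obtain ⟨δ0, hδ0, hδ⟩ := hPhi.eqc ε hε0
  set δ1 : ℝ := min (1 / 4) (δ0 / 2) with hδ1
  have hδ1p : 0 < δ1 := lt_min (by norm_num) (half_pos hδ0)
  have hδ1q : δ1 ≤ 1 / 4 := min_le_left _ _
  have hδ1r : δ1 ≤ δ0 / 2 := min_le_right _ _
  set V' : ℕ → (H →L[ℂ] H) → (H →L[ℂ] H) := fun l g =>
    G'.S1 * V l * star G'.S1 + G'.S2 * g * V l * star g * star G'.S2 with hV'
  have hone : ∀ s ∈ Icc (0 : ℝ) 1, 1 - δ1 ≤ s → ∀ w ∈ XX G'.d, ∀ w' ∈ XX G'.d, ∀ g ∈ GM A,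
      ∀ ξ : H, η ^ 2 / 4 * ‖ξ‖ ^ 2 ≤ ∑ l ∈ Finset.range (N + 1), ‖Ψ s w w' g (V' l g ξ)‖ ^ 2 := by
    intro s hs hs1 w hw w' hw' g hg ξ
    have hg12 := hI.gm A g hg
    have h1 : η ^ 2 * ‖ξ‖ ^ 2 ≤ ∑ l ∈ Finset.range (N + 1), ‖Ψ 1 w w' g (V' l g ξ)‖ ^ 2 := by
      rw [hPhi.bd1 w hw w' hw' g hg]
      exact end_lower hG' hg12.1 hg12.2.1
        (fun ξ => hlow 0 (by simp) w hw w hw 1 (one_mem _) ξ)
        (fun ξ => hlow 0 (by simp) w' hw' w' hw' 1 (one_mem _) ξ) ξ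
    have h2 : ∀ l, ‖Ψ 1 w w' g (V' l g ξ)‖ ^ 2 / 2 - (ε * (2 * ‖e‖ * ‖ξ‖)) ^ 2 ≤
        ‖Ψ s w w' g (V' l g ξ)‖ ^ 2 := by
      intro l
      have h3 := sq_half_le (Ψ s w w' g (V' l g ξ)) (Ψ 1 w w' g (V' l g ξ))
      have h4 : ‖Ψ s w w' g - Ψ 1 w w' g‖ ≤ ε := by
        refine hδ s hs 1 (by simp) ?_ w hw w' hw' g hg
        rw [abs_sub_comm, abs_of_nonneg (by linarith [hs.2])]
        linarith
      have h5 : ‖V' l g ξ‖ ≤ 2 * ‖e‖ * ‖ξ‖ := by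
        refine ((V' l g).le_opNorm ξ).trans (mul_le_mul_of_nonneg_right ?_ (norm_nonneg _))
        refine (two_copies_norm hG' hg12.1).trans ?_
        linarith [hVn l]
      have h6 : ‖Ψ s w w' g (V' l g ξ) - Ψ 1 w w' g (V' l g ξ)‖ ≤ ε * (2 * ‖e‖ * ‖ξ‖) := by
        have h7 : Ψ s w w' g (V' l g ξ) - Ψ 1 w w' g (V' l g ξ) =
            (Ψ s w w' g - Ψ 1 w w' g) (V' l g ξ) := rfl
        rw [h7]
        exact ((Ψ s w w' g - Ψ 1 w w' g).le_opNorm _).trans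
          (mul_le_mul h4 h5 (norm_nonneg _) hε0.le)
      have h8 := pow_le_pow_left₀ (norm_nonneg _) h6 2
      linarith
    have h9 := Finset.sum_le_sum fun l (_ : l ∈ Finset.range (N + 1)) => h2 l
    rw [Finset.sum_sub_distrib, ← Finset.sum_div, Finset.sum_const, Finset.card_range,
      nsmul_eq_mul] at h9
    push_cast at h9
    have h10 : ((N : ℝ) + 1) * (ε * (2 * ‖e‖ * ‖ξ‖)) ^ 2 = K * ε ^ 2 * ‖ξ‖ ^ 2 := by
      rw [hK]
      ring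
    rw [h10] at h9
    have h11 : K * ε ^ 2 * ‖ξ‖ ^ 2 ≤ η ^ 2 / 4 * ‖ξ‖ ^ 2 :=
      mul_le_mul_of_nonneg_right hε2 (sq_nonneg _)
    linarith
  -- the family
  have hX1 : ∀ l, IsE A G' (pth G' fa fc (V l)) := by
    intro l
    refine pth_isE A hI hG' (M := 2) (by unfold fa; fun_prop) (by unfold fc; fun_prop)
      (by norm_num) ?_ ?_ ?_ ?_ ?_ ?_ ?_ _
    · intro s hs
      unfold fa
      rw [abs_of_nonneg (le_max_left _ _)]
      exact max_le zero_le_one (by linarith [hs.1])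
    · intro s hs
      unfold fc
      rw [abs_of_nonneg (le_max_left _ _)]
      exact max_le zero_le_one (by linarith [hs.2])
    · intro s _ s' _
      unfold fa
      refine (max_lip _ _).trans ?_
      have : 1 - 2 * s - (1 - 2 * s') = -(2 * (s - s')) := by ring
      rw [this, abs_neg, abs_mul, abs_two]
    · intro s _ s' _
      unfold fc
      refine (max_lip _ _).trans ?_
      have : 2 * s - 1 - (2 * s' - 1) = 2 * (s - s') := by ring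
      rw [this, abs_mul, abs_two]
    · unfold fc
      norm_num
    · unfold fa
      norm_num
    · unfold fa fc
      norm_num
  have hX2 : ∀ l, IsE A G' (pth G' fz (fun _ => 0) (V l)) := by
    intro l
    refine pth_isE A hI hG' (M := 2) (by unfold fz; fun_prop) (by fun_prop)
      (by norm_num) ?_ ?_ ?_ ?_ ?_ ?_ ?_ _
    · intro s hs
      unfold fz
      rw [abs_of_nonneg (mul_nonneg hs.1 (by linarith [hs.2]))]
      nlinarith [hs.1, hs.2]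
    · intro s hs
      simp
    · intro s hs s' hs'
      unfold fz
      have : s * (1 - s) - s' * (1 - s') = (s - s') * (1 - s - s') := by ring
      rw [this, abs_mul, mul_comm]
      refine mul_le_mul_of_nonneg_right ?_ (abs_nonneg _)
      rw [abs_le]
      constructor <;> linarith [hs.1, hs.2, hs'.1, hs'.2]
    · intro s _ s' _
      simp
    · rfl
    · unfold fz
      norm_num
    · unfold fz
      norm_num
  set X : Fin (N + 1) ⊕ Fin (N + 1) → ℝ → Pt → Pt → (H →L[ℂ] H) → (H →L[ℂ] H) :=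
    Sum.elim (fun l => pth G' fa fc (V l)) (fun l => pth G' fz (fun _ => 0) (V l)) with hX
  set φ := Fintype.equivFin (Fin (N + 1) ⊕ Fin (N + 1)) with hφ
  refine ⟨_, fun i => X (φ.symm i), (δ1 / 4) ^ 2 * η ^ 2, by positivity, fun i => ?_, ?_⟩
  · show IsE A G' (X (φ.symm i))
    generalize φ.symm i = q
    rcases q with l | l
    · exact hX1 l
    · exact hX2 l
  intro s hs w hw w' hw' g hg ξ
  have hsum : ∑ i, ‖Ψ s w w' g (X (φ.symm i) s w w' g ξ)‖ ^ 2 =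
      ∑ i, ‖Ψ s w w' g (X i s w w' g ξ)‖ ^ 2 :=
    Equiv.sum_comp φ.symm fun i => ‖Ψ s w w' g (X i s w w' g ξ)‖ ^ 2
  have hsplit : ∑ i, ‖Ψ s w w' g (X i s w w' g ξ)‖ ^ 2 =
      ∑ l ∈ Finset.range (N + 1), ‖Ψ s w w' g (pth G' fa fc (V l) s w w' g ξ)‖ ^ 2 +
      ∑ l ∈ Finset.range (N + 1), ‖Ψ s w w' g (pth G' fz (fun _ => 0) (V l) s w w' g ξ)‖ ^ 2 := by
    rw [Fintype.sum_sum_type, Finset.sum_range, Finset.sum_range]
    rfl
  have hA0 : 0 ≤ ∑ l ∈ Finset.range (N + 1), ‖Ψ s w w' g (pth G' fa fc (V l) s w w' g ξ)‖ ^ 2 :=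
    Finset.sum_nonneg fun _ _ => sq_nonneg _
  have hB0 : 0 ≤ ∑ l ∈ Finset.range (N + 1),
      ‖Ψ s w w' g (pth G' fz (fun _ => 0) (V l) s w w' g ξ)‖ ^ 2 :=
    Finset.sum_nonneg fun _ _ => sq_nonneg _
  have hsm : ∀ (c : ℝ) (W : H →L[ℂ] H), ‖Ψ s w w' g (((c : ℂ) • W) ξ)‖ ^ 2 =
      c ^ 2 * ‖Ψ s w w' g (W ξ)‖ ^ 2 := by
    intro c W
    have h1 : ((c : ℂ) • W) ξ = (c : ℂ) • W ξ := rfl
    rw [h1, map_smul, norm_smul, mul_pow, Complex.norm_real, Real.norm_eq_abs, sq_abs]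
  have hδsq : (δ1 / 4) ^ 2 ≤ 1 / 256 := by nlinarith
  have hηξ : 0 ≤ η ^ 2 * ‖ξ‖ ^ 2 := by positivity
  have hl1 := hlow s hs w hw w' hw' g hg ξ
  show (δ1 / 4) ^ 2 * η ^ 2 * ‖ξ‖ ^ 2 ≤ ∑ i, ‖Ψ s w w' g (X (φ.symm i) s w w' g ξ)‖ ^ 2
  rw [hsum, hsplit]
  rcases le_total s (1 / 4) with h1 | h1
  · -- near zero
    have hA : ∑ l ∈ Finset.range (N + 1), ‖Ψ s w w' g (pth G' fa fc (V l) s w w' g ξ)‖ ^ 2 =
        (1 - 2 * s) ^ 2 * ∑ l ∈ Finset.range (N + 1), ‖Ψ s w w' g (V l ξ)‖ ^ 2 := by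
      rw [Finset.mul_sum]
      refine Finset.sum_congr rfl fun l _ => ?_
      have h2 : pth G' fa fc (V l) s w w' g = ((1 - 2 * s : ℝ) : ℂ) • V l := by
        unfold pth fa fc
        rw [max_eq_right (by linarith), max_eq_left (by linarith)]
        simp
      rw [h2, hsm]
    have h3 : (1 / 4 : ℝ) ≤ (1 - 2 * s) ^ 2 := by nlinarith
    have h4 : (1 / 4 : ℝ) * (η ^ 2 * ‖ξ‖ ^ 2) ≤
        (1 - 2 * s) ^ 2 * ∑ l ∈ Finset.range (N + 1), ‖Ψ s w w' g (V l ξ)‖ ^ 2 :=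
      mul_le_mul h3 hl1 hηξ (sq_nonneg _)
    have h5 : (δ1 / 4) ^ 2 * (η ^ 2 * ‖ξ‖ ^ 2) ≤ 1 / 256 * (η ^ 2 * ‖ξ‖ ^ 2) :=
      mul_le_mul_of_nonneg_right hδsq hηξ
    linarith
  rcases le_total s (1 - δ1) with h2 | h2
  · -- the middle
    have hB : ∑ l ∈ Finset.range (N + 1),
        ‖Ψ s w w' g (pth G' fz (fun _ => 0) (V l) s w w' g ξ)‖ ^ 2 =
        (s * (1 - s)) ^ 2 * ∑ l ∈ Finset.range (N + 1), ‖Ψ s w w' g (V l ξ)‖ ^ 2 := by
      rw [Finset.mul_sum]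
      refine Finset.sum_congr rfl fun l _ => ?_
      have h2 : pth G' fz (fun _ => 0) (V l) s w w' g = ((s * (1 - s) : ℝ) : ℂ) • V l := by
        unfold pth fz
        simp
      rw [h2, hsm]
    have h3 : δ1 / 4 ≤ s * (1 - s) := by nlinarith
    have h4 : (δ1 / 4) ^ 2 ≤ (s * (1 - s)) ^ 2 := pow_le_pow_left₀ (by positivity) h3 2
    have h5 : (δ1 / 4) ^ 2 * (η ^ 2 * ‖ξ‖ ^ 2) ≤
        (s * (1 - s)) ^ 2 * ∑ l ∈ Finset.range (N + 1), ‖Ψ s w w' g (V l ξ)‖ ^ 2 :=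
      mul_le_mul h4 hl1 hηξ (sq_nonneg _)
    linarith
  · -- near one
    have hA : ∑ l ∈ Finset.range (N + 1), ‖Ψ s w w' g (pth G' fa fc (V l) s w w' g ξ)‖ ^ 2 =
        (2 * s - 1) ^ 2 * ∑ l ∈ Finset.range (N + 1), ‖Ψ s w w' g (V' l g ξ)‖ ^ 2 := by
      rw [Finset.mul_sum]
      refine Finset.sum_congr rfl fun l _ => ?_
      have h2 : pth G' fa fc (V l) s w w' g = ((2 * s - 1 : ℝ) : ℂ) • V' l g := by
        unfold pth fa fc
        rw [max_eq_left (by linarith), max_eq_right (by linarith)]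
        simp [hV']
      rw [h2, hsm]
    have h3 : (1 / 4 : ℝ) ≤ (2 * s - 1) ^ 2 := by nlinarith
    have h4 := hone s hs h2 w hw w' hw' g hg ξ
    have h5 : (1 / 4 : ℝ) * (η ^ 2 / 4 * ‖ξ‖ ^ 2) ≤
        (2 * s - 1) ^ 2 * ∑ l ∈ Finset.range (N + 1), ‖Ψ s w w' g (V' l g ξ)‖ ^ 2 :=
      mul_le_mul h3 h4 (by positivity) (sq_nonneg _)
    have h6 : (δ1 / 4) ^ 2 * (η ^ 2 * ‖ξ‖ ^ 2) ≤ 1 / 256 * (η ^ 2 * ‖ξ‖ ^ 2) :=
      mul_le_mul_of_nonneg_right hδsq hηξ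
    linarith

end

end Pool.Agent.Y652.EL
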